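import Pool.Agent.Work.MP_440970_an.Bd.B03
import Pool.Agent.Work.MP_440970_an.Bdx.B02
import Pool.Agent.Work.MP_440970_an.Bdx.B03

/-!
# Block CX: all claims proved, `X^p(ℂ) = L^p(ℂ)` for `p ≤ 13/35`
-/

open MeasureTheory Complex Set Filter Topology
open scoped ENNReal ComplexConjugate

namespace Pool.Agent.Work.MP_440970_an

theorem AllX_main : MainP (13 / 35) := by
  have hParts := claimParts
  have hSing := claimSing
  have hBb := claimBb hSing
  have hBH := claimBHadd claimPol hBb
  have hWpt := claimWpt claimPol claimPolDil claimTaylor hParts hSing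
  have hW := claimW hWpt
  have hCell := claimCell hW claimDX hBb
  have hConv := claimConvert hW claimDX hBH claimPart hCell
  have hI1 := claimI1 claimPot hSing
  have hI2 := claimI2 claimPot hSing
  have hStep := claimStep claimQ2
  have hDens := claimDens claimQ2 hStep
  have hMem := claimMem hBb hI1 hI2 claimMom
  have hNum := claimNumJ claimIntN (claimCellN claimPrim) (claimInnerN claimIntN)
    (claimTailN claimPrim claimIntN)
  have hNeg := claimNegX hMem claimVdm claimApM (claimApB claimTay claimApM claimApC)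
    (claimApL claimApC) claimQ2
  exact claimMainX claimNodes hW claimDX hConv (claimCl hBb) claimQ2 hDens (13 / 35)
    (by norm_num) (hNeg (1 / 3) (9 / 10) (13 / 35) (by norm_num) (by norm_num) hNum)

theorem AllX_closure (p : ℝ) (hp : 0 < p) (hp' : p ≤ 13 / 35)
    (g : ℂ → ℂ) (hg : MemLp g (ENNReal.ofReal p) volume) (ε : ℝ) (hε : 0 < ε) :
    ∃ f ∈ X, MemLp f (ENNReal.ofReal p) volume ∧
      ∫⁻ z, ‖g z - f z‖ₑ ^ p < ENNReal.ofReal ε :=
  MainX_closure (by norm_num) AllX_main claimDX p hp hp' g hg ε hε

end Pool.Agent.Work.MP_440970_an
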