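import Pool.Agent.Work.MP_440970_an.Bd.B01

/-!
# Block CX: density of the complex span up to `p = 13/35`

Definitions and statements of the items.
-/

open MeasureTheory Complex Set Filter Topology
open scoped ENNReal ComplexConjugate

namespace Pool.Agent.Work.MP_440970_an

/-! ## The class -/

/-- Fast decaying pairs `F` with `bb F.1 = F.2` and `bb (- conj F.2) = conj F.1`. -/
def InCl (M : ℕ) (F : ℂ → ℂ × ℂ) : Prop :=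
  (∃ A, Nice M A (fun z => (F z).1) ∧ Nice M A (fun z => (F z).2)) ∧
  (∀ z, bb (fun a => (F a).1) z = (F z).2) ∧
  ∀ z, bb (fun a => -conj (F a).2) z = conj (F z).1

/-- [CX1] the class is a subspace, closed under affine maps and `Jq` -/
def ClaimCl : Prop := ∀ M : ℕ, 3 ≤ M → ∃ S : Submodule ℂ (ℂ → ℂ × ℂ), (∀ F, F ∈ S ↔ InCl M F) ∧
  (∀ F ∈ S, ∀ (b : ℂ) (u : ℝ), 0 < u → (fun z => F ((z - b) / u)) ∈ S) ∧
  ∀ F ∈ S, Jq F ∈ S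

/-- The field of charges `c i` at depths `s i`, `i < n`. -/
noncomputable def Fs (n : ℕ) (c s : ℕ → ℝ) (z : ℂ) : ℂ × ℂ :=
  (∑ i ∈ Finset.range n, (c i : ℂ) * hs (s i) z, ∑ i ∈ Finset.range n, (c i : ℂ) * ks (s i) z)

/-- the first `M` moments of the charges vanish -/
def Mom0 (M n : ℕ) (c s : ℕ → ℝ) : Prop := ∀ k < M, ∑ i ∈ Finset.range n, c i * s i ^ k = 0

/-- [CX2] far field of charges with vanishing moments, with uniform constant -/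
def ClaimTay : Prop := ∀ (M : ℕ) (S : ℝ), 1 ≤ M → 0 < S → ∃ C > 0,
  ∀ (n : ℕ) (c s : ℕ → ℝ) (z : ℂ), z ≠ 0 → (∀ i < n, 0 < s i ∧ s i ≤ S * ‖z‖) → Mom0 M n c s →
  ‖(Fs n c s z).1‖ ≤ C * (‖z‖ ^ 2)⁻¹ * ∑ i ∈ Finset.range n, |c i| * (s i / ‖z‖) ^ M ∧
  ‖(Fs n c s z).2‖ ≤ C * (‖z‖ ^ 2)⁻¹ * ∑ i ∈ Finset.range n, |c i| * (s i / ‖z‖) ^ M

/-- [CX3] charges with vanishing moments give fast decaying `C¹` fields -/
def ClaimMom : Prop := ∀ (M n : ℕ) (c s : ℕ → ℝ), 1 ≤ M → (∀ i < n, 0 < s i) → Mom0 M n c s →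
  ∃ A, Nice M A (fun z => (Fs n c s z).1) ∧ Nice M A (fun z => (Fs n c s z).2)

/-- [CX4] membership -/
def ClaimMem : Prop := ∀ (M n : ℕ) (c s : ℕ → ℝ), 3 ≤ M → (∀ i < n, 0 < s i) → Mom0 M n c s →
  InCl M (Fs n c s)

/-- dual basis of the moments at the nodes `1, ..., M` -/
def IsVdm (M : ℕ) (v : ℕ → ℕ → ℝ) : Prop :=
  ∀ k < M, ∀ i < M, ∑ j ∈ Finset.range M, v k j * (1 + (j : ℝ)) ^ i = if i = k then 1 else 0

/-- [CX5] -/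
def ClaimVdm : Prop := ∀ M : ℕ, ∃ v, IsVdm M v

/-! ## The limit field and its approximation -/

/-- first component of the limit field -/
noncomputable def g0 (β ν r : ℝ) : ℝ := -(β / r ^ 3) - ν / Real.sqrt (1 + r ^ 2) ^ 3

/-- second component (radial) of the limit field -/
noncomputable def h0 (ν r : ℝ) : ℝ := ν * (1 / r ^ 2 - r / Real.sqrt (1 + r ^ 2) ^ 3)

/-- charges of the approximating fields -/
noncomputable def cn (β ν : ℝ) (v : ℕ → ℕ → ℝ) (M n : ℕ) : ℕ → ℝ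
  | 0 => β * n + ν
  | 1 => -(β * n)
  | 2 => -ν
  | (j + 3) => -∑ k ∈ Finset.range M,
      ((β * n + ν) * (1 / (n : ℝ)) ^ k - β * n * (2 / (n : ℝ)) ^ k - ν) * (1 / (n : ℝ)) ^ k * v k j

/-- depths of the approximating fields -/
noncomputable def sn (n : ℕ) : ℕ → ℝ
  | 0 => 1 / n
  | 1 => 2 / n
  | 2 => 1
  | (j + 3) => n * (1 + j)

/-- [CX6] the approximating charges have vanishing moments -/
def ClaimApM : Prop := ∀ (β ν : ℝ) (M : ℕ) (v : ℕ → ℕ → ℝ), 1 ≤ M → IsVdm M v →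
  ∀ n : ℕ, 1 ≤ n → (∀ i, 0 < sn n i) ∧ Mom0 M (3 + M) (cn β ν v M n) (sn n)

/-- [CX7] the far charges are small -/
def ClaimApC : Prop := ∀ (β ν : ℝ) (M : ℕ) (v : ℕ → ℕ → ℝ), 1 ≤ M →
  ∃ C > 0, ∀ n : ℕ, 1 ≤ n → ∀ j < M, |cn β ν v M n (j + 3)| ≤ C / n

/-- [CX8] uniform bounds of the approximating fields -/
def ClaimApB : Prop := ∀ (β ν : ℝ) (M : ℕ) (v : ℕ → ℕ → ℝ), 3 ≤ M → IsVdm M v →
  ∃ C > 0, ∀ (n : ℕ) (z : ℂ), 1 ≤ n → z ≠ 0 →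
    ‖(Fs (3 + M) (cn β ν v M n) (sn n) z).1‖ ≤ C * (‖z‖ ^ 3)⁻¹ ∧
    ‖(Fs (3 + M) (cn β ν v M n) (sn n) z).2‖ ≤ C * (‖z‖ ^ 3)⁻¹

/-- [CX9] limits of the approximating fields -/
def ClaimApL : Prop := ∀ (β ν : ℝ) (M : ℕ) (v : ℕ → ℕ → ℝ), 1 ≤ M →
  ∀ z : ℂ, z ≠ 0 →
    Tendsto (fun n => (Fs (3 + M) (cn β ν v M n) (sn n) z).1) atTop (𝓝 ((g0 β ν ‖z‖ : ℝ) : ℂ)) ∧
    Tendsto (fun n => (Fs (3 + M) (cn β ν v M n) (sn n) z).2) atTop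
      (𝓝 (z / ‖z‖ * ((h0 ν ‖z‖ : ℝ) : ℂ)))

/-! ## The one-dimensional inequality -/

/-- `|e + G|²` for the limit field -/
noncomputable def AA (β ν r : ℝ) : ℝ := (1 + g0 β ν r) ^ 2 + h0 ν r ^ 2

/-- the radial integral is negative (in particular the integrand is integrable) -/
def NumJ (β ν p0 : ℝ) : Prop := ∫ r in Ioi (0 : ℝ), (AA β ν r ^ (p0 / 2) - 1) * r < 0

/-- [CX10] the functional is negative on the class -/
def ClaimNegX : Prop := ∀ β ν p0 : ℝ, 0 < p0 → 3 * p0 < 2 → NumJ β ν p0 →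
  ∀ (M : ℕ) (p : ℝ), 3 ≤ M → 0 < p → p ≤ p0 → ∃ G, InCl M G ∧ JJ p G < 0

/-- the result at `p0` -/
def MainP (p0 : ℝ) : Prop := ∀ p : ℝ, 0 < p → p ≤ p0 → ∀ g : ℂ → ℂ, Measurable g → np p g < ⊤ →
  dX p g = 0

/-! ## The numerical part: `β = 1/3`, `ν = 9/10`, `p0 = 13/35` -/

/-- the integrand -/
noncomputable def fN (r : ℝ) : ℝ := (AA (1 / 3) (9 / 10) r ^ (13 / 70 : ℝ) - 1) * r

/-- primitive of `AA r * r` -/
noncomputable def Pr (r : ℝ) : ℝ :=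
  r ^ 2 / 2 + 2 / (3 * r) + 9 / (5 * Real.sqrt (1 + r ^ 2)) - 1 / (36 * r ^ 4)
    - 3 * (1 + 2 * r ^ 2) / (5 * r * Real.sqrt (1 + r ^ 2)) - 81 / (200 * (1 + r ^ 2))
    - 81 / (200 * r ^ 2) - 81 * r / (50 * Real.sqrt (1 + r ^ 2))

/-- [CX11] -/
def ClaimPrim : Prop := ∀ r : ℝ, 0 < r → HasDerivAt Pr (AA (1 / 3) (9 / 10) r * r) r

/-- [CX12] integrability -/
def ClaimIntN : Prop := IntegrableOn fN (Ioi 0)

/-- [CX13] one cell -/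
def ClaimCellN : Prop := ∀ a b t : ℝ, 0 < a → a < b → 0 < t →
  ∫ r in a..b, fN r ≤ (57 / 70 * t ^ 13 - 1) * (b ^ 2 - a ^ 2) / 2 +
    13 / 70 * (Pr b - Pr a) / t ^ 57

/-- [CX14] the neighbourhood of `0` -/
def ClaimInnerN : Prop := ∀ ρ x : ℝ, 0 < ρ → ρ ≤ 1 → 0 < x → ρ ≤ x ^ 35 →
  ∫ r in Ioc 0 ρ, fN r ≤ 105 / 62 * x ^ 31

/-- [CX15] the neighbourhood of infinity -/
def ClaimTailN : Prop := ∀ R : ℝ, 0 < R →
  ∫ r in Ioi R, fN r ≤ 13 / 70 * (R ^ 2 / 2 - 141 / 50 - Pr R)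

/-- [CX16] -/
def ClaimNumJ : Prop := NumJ (1 / 3) (9 / 10) (13 / 35)

end Pool.Agent.Work.MP_440970_an
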